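import Pool.Agent.Bar.Final

/-!
# MP_0b6f3a_an, Q2

For `d = 2`, alphabets of sizes `2` and `5` and a digit set `E` with five elements, the map
`Φ ↦ HD(Φ)` is neither real-analytic nor piecewise real-analytic on the set `𝓑_s` of strongly
Barański parameters.
-/

namespace Pool.Agent.Results.MP_0b6f3a_an.StrongNotAnalytic

open Pool.Agent.Bar

/-- There are `d` (namely `d = 2`), alphabets `A_i` and a nonempty digit set `E` such that
`Φ ↦ HD(Φ)` is not real-analytic, and not even piecewise real-analytic, on the set of strongly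
Barański parameters. -/
theorem result : ∃ (k : Fin 2 → ℕ) (E : Set (Alph k)), E.Nonempty ∧
    ¬ RealAnalyticOn (HD E) (stronglyBaranski k) ∧
    ¬ PiecewiseRealAnalyticOn (HD E) (stronglyBaranski k) :=
  ⟨kk, EE, ⟨sym 0, 0, rfl⟩, fun h => main subset_rfl (piecewise_of_analytic h),
    main subset_rfl⟩

end Pool.Agent.Results.MP_0b6f3a_an.StrongNotAnalytic
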